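import Pool.Agent.Helper8.UC.Loc

/-!
# The quadratic form of `adj(M) F` is positive (pieces U1 and U2)
-/

set_option autoImplicit false

open scoped Manifold ContDiff

namespace Pool.Agent.Helper98.UC

open Pool.Agent.Helper8.DC Pool.Agent.Helper8.UC

noncomputable section

theorem wedge3_smul (a b : Fin 4 → ℝ) (c : ℝ) (B B' : Fin 4 → Fin 4 → ℝ)
    (h : ∀ l m, B' l m = c * B l m) : wedge3 a b B' = c * wedge3 a b B := by
  simp only [wedge3, wedge, h]
  ring

theorem adj_diag (M : Matrix (Fin 3) (Fin 3) ℝ) (h01 : M 0 1 = 0) (h02 : M 0 2 = 0)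
    (h12 : M 1 2 = 0) (h10 : M 1 0 = 0) (h20 : M 2 0 = 0) (h21 : M 2 1 = 0) (v : R3) :
    M.adjugate.mulVec v 0 = M 1 1 * M 2 2 * v 0 ∧ M.adjugate.mulVec v 1 = M 2 2 * M 0 0 * v 1 ∧
      M.adjugate.mulVec v 2 = M 0 0 * M 1 1 * v 2 := by
  refine ⟨?_, ?_, ?_⟩
  · simp only [Matrix.adjugate_fin_three, Matrix.mulVec, dotProduct, Fin.sum_univ_three]
    simp [h01, h02, h12, h10, h20, h21]
  · simp only [Matrix.adjugate_fin_three, Matrix.mulVec, dotProduct, Fin.sum_univ_three]
    simp [h01, h02, h12, h10, h20, h21]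
    left
    ring
  · simp only [Matrix.adjugate_fin_three, Matrix.mulVec, dotProduct, Fin.sum_univ_three]
    simp [h01, h02, h12, h10, h20, h21]

/-- `quad α (adjF F)` if the matrix is diagonal -/
theorem quad_adjF_diag (F : Fin 4 → Fin 4 → R3) (hoff : ∀ a b, a ≠ b → gram F a b = 0)
    (α : Fin 4 → R3) : quad α (adjF F) =
    2 * (gram F 0 0 * gram F 1 1 * wedge3 (cm1 α 0) (cm1 α 1) (cmp F 2) +
      gram F 1 1 * gram F 2 2 * wedge3 (cm1 α 1) (cm1 α 2) (cmp F 0) +
      gram F 2 2 * gram F 0 0 * wedge3 (cm1 α 2) (cm1 α 0) (cmp F 1)) := by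
  have h01 := hoff 0 1 (by decide)
  have h02 := hoff 0 2 (by decide)
  have h12 := hoff 1 2 (by decide)
  have h10 := hoff 1 0 (by decide)
  have h20 := hoff 2 0 (by decide)
  have h21 := hoff 2 1 (by decide)
  have e0 : ∀ l m, cmp (adjF F) 0 l m = gram F 1 1 * gram F 2 2 * cmp F 0 l m := fun l m =>
    (adj_diag (gram F) h01 h02 h12 h10 h20 h21 (F l m)).1
  have e1 : ∀ l m, cmp (adjF F) 1 l m = gram F 2 2 * gram F 0 0 * cmp F 1 l m := fun l m =>
    (adj_diag (gram F) h01 h02 h12 h10 h20 h21 (F l m)).2.1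
  have e2 : ∀ l m, cmp (adjF F) 2 l m = gram F 0 0 * gram F 1 1 * cmp F 2 l m := fun l m =>
    (adj_diag (gram F) h01 h02 h12 h10 h20 h21 (F l m)).2.2
  rw [quad, wedge3_smul _ _ _ _ _ e0, wedge3_smul _ _ _ _ _ e1, wedge3_smul _ _ _ _ _ e2]

/-- `adjF (R F) = R (adjF F)` -/
theorem adjF_rot (R : Matrix (Fin 3) (Fin 3) ℝ) (hR : R ∈ Matrix.specialOrthogonalGroup (Fin 3) ℝ)
    (F : Fin 4 → Fin 4 → R3) :
    adjF (fun l m => R.mulVec (F l m)) = fun l m => R.mulVec (adjF F l m) := by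
  obtain ⟨hO, hd⟩ := Matrix.mem_specialOrthogonalGroup_iff.mp hR
  have hR1 : R.transpose * R = 1 := by
    rw [Matrix.mem_orthogonalGroup_iff'] at hO
    simpa [Matrix.star_eq_conjTranspose] using hO
  have hadj : R.adjugate = R.transpose := by
    have h1 : R * R.adjugate = 1 := by rw [Matrix.mul_adjugate, hd, one_smul]
    calc R.adjugate = (R.transpose * R) * R.adjugate := by rw [hR1, Matrix.one_mul]
      _ = R.transpose := by rw [Matrix.mul_assoc, h1, Matrix.mul_one]
  have hadjT : R.transpose.adjugate = R := by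
    rw [← Matrix.adjugate_transpose, hadj, Matrix.transpose_transpose]
  funext l m
  unfold adjF
  rw [gram_rot R F, Matrix.adjugate_mul_distrib, Matrix.adjugate_mul_distrib, hadj, hadjT,
    Matrix.mulVec_mulVec, Matrix.mulVec_mulVec]
  congr 1
  rw [Matrix.mul_assoc, Matrix.mul_assoc, hR1, Matrix.mul_one]

open Matrix in
/-- The quadratic form of `adj(M) F` in a frame in which `M` is diagonal (proof of
`quad_diag_strict`). -/
theorem quadB_diag (F : Fin 4 → Fin 4 → R3) (hs : Skew F)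
    (h01 : gram F 0 1 = 0) (h02 : gram F 0 2 = 0) (h12 : gram F 1 2 = 0)
    (hp : ∀ a, 0 < gram F a a)
    (hU : ∀ u : Fin 4 → ℝ, u ≠ 0 → quad (fun m a => val F u (Pi.single m 1) a) F < 0)
    (α : Fin 4 → R3) (hα : Constr α F) (h0 : α ≠ 0) :
    0 < 2 * (gram F 0 0 * gram F 1 1 * wedge3 (cm1 α 0) (cm1 α 1) (cmp F 2) +
      gram F 1 1 * gram F 2 2 * wedge3 (cm1 α 1) (cm1 α 2) (cmp F 0) +
      gram F 2 2 * gram F 0 0 * wedge3 (cm1 α 2) (cm1 α 0) (cmp F 1)) := by
  have sk : ∀ a l m, cmp F a l m = -cmp F a m l := fun a l m => by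
    have := congrFun (hs l m) a
    simpa [Pool.Agent.Helper8.DC.cmp] using this
  have hsymm : ∀ A B : Fin 4 → Fin 4 → ℝ, wedge A B = wedge B A := fun A B => by
    simp only [wedge]; ring
  -- the anticommutation relations
  have dg : ∀ a, pBmtF (cmp F a) * pBmtG (cmp F a) =
      (-(gram F a a / 2)) • (1 : Matrix (Fin 4) (Fin 4) ℝ) := fun a => by
    have h := pB_anti_FG (cmp F a) (cmp F a) (sk a) (sk a)
    rw [← two_smul ℝ] at h
    have h' := congrArg (fun M => (1 / 2 : ℝ) • M) h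
    simp only [smul_smul] at h'
    norm_num at h'
    rw [h']
    simp only [Pool.Agent.Helper8.DC.gram]
    rw [← neg_smul]
    congr 1
    ring
  have an : ∀ a b, gram F a b = 0 → pBmtF (cmp F a) * pBmtG (cmp F b) =
      -(pBmtF (cmp F b) * pBmtG (cmp F a)) := fun a b h => by
    have h' := pB_anti_FG (cmp F a) (cmp F b) (sk a) (sk b)
    have h2 : wedge (cmp F a) (cmp F b) = 0 := h
    rw [h2, neg_zero, zero_smul] at h'
    exact eq_neg_of_add_eq_zero_left h'
  have bn : ∀ a b, gram F a b = 0 → pBmtG (cmp F a) * pBmtF (cmp F b) =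
      -(pBmtG (cmp F b) * pBmtF (cmp F a)) := fun a b h => by
    have h' := pB_anti_GF (cmp F a) (cmp F b) (sk a) (sk b)
    have h2 : wedge (cmp F a) (cmp F b) = 0 := h
    rw [h2, neg_zero, zero_smul] at h'
    exact eq_neg_of_add_eq_zero_left h'
  have h20 : gram F 2 0 = 0 := by
    have : gram F 2 0 = gram F 0 2 := hsymm _ _
    rw [this, h02]
  have h21 : gram F 2 1 = 0 := by
    have : gram F 2 1 = gram F 1 2 := hsymm _ _
    rw [this, h12]
  obtain ⟨e1, e2, hT⟩ := pB_cyc_mats (pBmtF (cmp F 0)) (pBmtF (cmp F 1)) (pBmtF (cmp F 2))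
    (pBmtG (cmp F 0)) (pBmtG (cmp F 1)) (pBmtG (cmp F 2))
    (pBmtF_transpose _ (sk 0)) (pBmtF_transpose _ (sk 1)) (pBmtG_transpose _)
    (an 0 2 h02) (an 2 1 h21) (bn 0 1 h01) (bn 2 0 h20)
  set T : Matrix (Fin 4) (Fin 4) ℝ := pBmtF (cmp F 0) * pBmtG (cmp F 2) * pBmtF (cmp F 1) with hTdef
  -- positivity of T
  have hpos : ∀ u : Fin 4 → ℝ, u ≠ 0 → 0 < u ⬝ᵥ (T *ᵥ u) := by
    intro u hu0
    have hu := hU u hu0
    have hiota : ∀ a, cm1 (fun m a => val F u (Pi.single m 1) a) a = -(pBmtF (cmp F a) *ᵥ u) := by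
      intro a
      have s := sk a
      have s0 : ∀ l, cmp F a l l = 0 := fun l => by have := s l l; linarith
      simp only [Pool.Agent.Helper8.DC.cmp] at s s0
      funext m
      fin_cases m <;>
        simp [cm1, val, pBmtF, Pool.Agent.Helper8.DC.cmp, Matrix.mulVec, dotProduct, Fin.sum_univ_four, Pi.single_apply,
          s0, s 1 0, s 2 0, s 3 0, s 2 1, s 3 1, s 3 2] <;> ring
    have term : ∀ (A B : Matrix (Fin 4) (Fin 4) ℝ) (G : Matrix (Fin 4) (Fin 4) ℝ),
        A.transpose = -A → A * G * B = T →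
        (-(A *ᵥ u)) ⬝ᵥ (G *ᵥ (-(B *ᵥ u))) = -(u ⬝ᵥ (T *ᵥ u)) := by
      intro A B G hA hAB
      rw [← hAB, Matrix.mulVec_neg, neg_dotProduct_neg, dotProduct_comm, Matrix.dotProduct_mulVec,
        ← Matrix.mulVec_transpose, hA, dotProduct_comm, Matrix.mulVec_mulVec,
        Matrix.mulVec_mulVec]
      simp [Matrix.mul_assoc, Matrix.neg_mulVec]
    rw [quad, pB_wedge3_eq, pB_wedge3_eq, pB_wedge3_eq, hiota 0, hiota 1, hiota 2,
      term _ _ _ (pBmtF_transpose _ (sk 0)) hTdef.symm,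
      term _ _ _ (pBmtF_transpose _ (sk 1)) e2.symm,
      term _ _ _ (pBmtF_transpose _ (sk 2)) e1.symm] at hu
    linarith
  -- the constraint
  set x : Fin 3 → (Fin 4 → ℝ) := fun a => pBmtG (cmp F a) *ᵥ cm1 α a with hx
  have hsum : x 2 = -(x 0 + x 1) := by
    have h3 : x 0 + x 1 + x 2 = 0 := by
      apply dotProduct_eq_zero
      intro β
      have hβ := hα β
      simp only [Fin.sum_univ_three, pB_wedge3_eq] at hβ
      have tr : ∀ a, cm1 α a ⬝ᵥ (pBmtG (cmp F a) *ᵥ β) = -(x a ⬝ᵥ β) := by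
        intro a
        rw [Matrix.dotProduct_mulVec, ← Matrix.mulVec_transpose, pBmtG_transpose, Matrix.neg_mulVec,
          neg_dotProduct]
      rw [tr, tr, tr] at hβ
      rw [add_dotProduct, add_dotProduct]
      linarith
    rw [add_assoc, add_comm (x 1), ← add_assoc, add_comm (x 0), add_assoc] at h3
    rw [eq_neg_of_add_eq_zero_left h3]
  have q01 := pB_single_term _ _ _ T _ _ _ _ (pBmtF_transpose _ (sk 0)) (dg 0) (dg 1) hTdef.symm
    (cm1 α 0) (cm1 α 1)
  have q12 := pB_single_term _ _ _ T _ _ _ _ (pBmtF_transpose _ (sk 1)) (dg 1) (dg 2) e2.symm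
    (cm1 α 1) (cm1 α 2)
  have q20 := pB_single_term _ _ _ T _ _ _ _ (pBmtF_transpose _ (sk 2)) (dg 2) (dg 0) e1.symm
    (cm1 α 2) (cm1 α 0)
  change _ = -4 * (x 0 ⬝ᵥ (T *ᵥ x 1)) at q01
  change _ = -4 * (x 1 ⬝ᵥ (T *ᵥ x 2)) at q12
  change _ = -4 * (x 2 ⬝ᵥ (T *ᵥ x 0)) at q20
  have hsym : x 1 ⬝ᵥ (T *ᵥ x 0) = x 0 ⬝ᵥ (T *ᵥ x 1) := by
    rw [Matrix.dotProduct_mulVec, ← Matrix.mulVec_transpose, hT, dotProduct_comm]
  rw [hsum] at q12 q20
  simp only [Matrix.mulVec_neg, Matrix.mulVec_add, dotProduct_neg, neg_dotProduct, dotProduct_add,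
    add_dotProduct, hsym] at q12 q20
  have hne : x 0 ≠ 0 ∨ x 1 ≠ 0 := by
    by_contra hcon
    push Not at hcon
    have hx2 : x 2 = 0 := by rw [hsum, hcon.1, hcon.2, add_zero, neg_zero]
    have hall : ∀ a, x a = 0 := by
      intro a
      fin_cases a
      · exact hcon.1
      · exact hcon.2
      · exact hx2
    apply h0
    funext m a
    have h1 : pBmtF (cmp F a) *ᵥ (x a) = (-(gram F a a / 2)) • cm1 α a := by
      simp only [hx]
      rw [Matrix.mulVec_mulVec, dg a, Matrix.smul_mulVec, Matrix.one_mulVec]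
    rw [hall a, Matrix.mulVec_zero] at h1
    have h2 := congrFun h1 m
    simp only [Pi.zero_apply, Pi.smul_apply, smul_eq_mul, cm1] at h2
    have h3 := hp a
    have h4 : -(gram F a a / 2) ≠ 0 := by linarith
    exact (mul_eq_zero.mp h2.symm).resolve_left h4
  have hfin := qa2_final T hT hpos (x 0) (x 1) hne 1 1 1 one_pos (by norm_num)
  rw [pB_wedge3_eq, pB_wedge3_eq, pB_wedge3_eq, q01, q12, q20]
  linarith

/-- **U1.** -/
theorem quadB_pos (F : Fin 4 → Fin 4 → R3) (hs : Skew F) (hF : PosDef F) (α : Fin 4 → R3)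
    (hα : Constr α F) (h0 : α ≠ 0) : 0 < quad α (adjF F) := by
  obtain ⟨R, hR, hdiag⟩ := rot_diag (gram F) (gram_symm F)
  have hR1 : R.transpose * R = 1 := by
    have := (Matrix.mem_specialOrthogonalGroup_iff.mp hR).1
    rw [Matrix.mem_orthogonalGroup_iff'] at this
    simpa [Matrix.star_eq_conjTranspose] using this
  set F' : Fin 4 → Fin 4 → R3 := fun l m => R.mulVec (F l m) with hF'
  have hg : gram F' = R * gram F * R.transpose := gram_rot R F
  have hs' : Skew F' := by
    intro l m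
    simp only [hF']
    rw [hs l m, Matrix.mulVec_neg]
  have hpos : ∀ a, 0 < gram F' a a := by
    intro a
    have hrow : (fun b => R a b) ≠ 0 := by
      intro h0
      have hR2 : R * R.transpose = 1 := mul_eq_one_comm.mp hR1
      have := congrFun (congrFun hR2 a) a
      simp only [Matrix.mul_apply, Matrix.transpose_apply, Matrix.one_apply_eq] at this
      have h1 : ∀ b, R a b = 0 := fun b => congrFun h0 b
      simp [h1] at this
    have := gram_pos F hs hF (fun b => R a b) hrow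
    rw [hg]
    simp only [Matrix.mul_apply, Matrix.transpose_apply]
    refine lt_of_lt_of_eq this ?_
    rw [Finset.sum_comm]
    refine Finset.sum_congr rfl fun b _ => ?_
    rw [Finset.sum_mul]
  have hoff : ∀ a b, a ≠ b → gram F' a b = 0 := by
    intro a b hab
    rw [hg]
    exact hdiag a b hab
  have hU : ∀ u : Fin 4 → ℝ, u ≠ 0 →
      quad (fun m a => val F' u (Pi.single m 1) a) F' < 0 := by
    intro u hu
    have h1 : (fun (m : Fin 4) (a : Fin 3) => val F' u (Pi.single m 1) a) =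
        fun m => R.mulVec (fun a => val F u (Pi.single m 1) a) := by
      funext m
      exact val_rot R F u (Pi.single m 1)
    rw [h1, hF', quad_rot R hR]
    exact urb_neg_strict F hs hF u hu
  have hne : (fun m => R.mulVec (α m)) ≠ 0 := by
    intro h
    apply h0
    funext m
    have h1 : R.mulVec (α m) = 0 := congrFun h m
    have h2 : (R.transpose * R).mulVec (α m) = 0 := by
      rw [← Matrix.mulVec_mulVec, h1, Matrix.mulVec_zero]
    rw [hR1, Matrix.one_mulVec] at h2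
    exact h2
  have h := quadB_diag F' hs' (hoff 0 1 (by decide)) (hoff 0 2 (by decide))
    (hoff 1 2 (by decide)) hpos hU (fun m => R.mulVec (α m)) (constr_rot R hR α F hα) hne
  rw [← quad_adjF_diag F' hoff, hF', adjF_rot R hR, quad_rot R hR] at h
  exact h

/-- **U2.** -/
theorem bound_quadB (A : E4 → Fin 4 → R3) (U : Set E4) (hU : IsOpen U) (hA : ContDiffOn ℝ ∞ A U)
    (K : Set E4) (hK : IsCompact K) (hKU : K ⊆ U) (hP : ∀ y ∈ K, PosDef (curv A y)) :
    ∃ c : ℝ, 0 < c ∧ ∀ y ∈ K, ∀ α : Fin 4 → R3, Constr α (curv A y) →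
      c * ∑ m, ∑ a, α m a ^ 2 ≤ quad α (adjF (curv A y)) := by
  have hc := qb_curv (V := Fin 4 → R3) A U hU hA K hKU
  have ha : ∀ (a : Fin 3) (m : Fin 4), ContinuousOn (fun p : E4 × (Fin 4 → R3) => p.2 m a)
      (K ×ˢ Set.univ) := fun a m => (by fun_prop : Continuous
        (fun p : E4 × (Fin 4 → R3) => p.2 m a)).continuousOn
  have hgr : ∀ a b : Fin 3, ContinuousOn (fun p : E4 × (Fin 4 → R3) => gram (curv A p.1) a b)
      (K ×ˢ Set.univ) := fun a b => qb_wedge (fun l m => hc l m a) (fun l m => hc l m b)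
  have hadj : ∀ (l m : Fin 4) (a : Fin 3), ContinuousOn
      (fun p : E4 × (Fin 4 → R3) => adjF (curv A p.1) l m a) (K ×ˢ Set.univ) := by
    intro l m a
    have h1 : ContinuousOn (fun p : E4 × (Fin 4 → R3) => gram (curv A p.1)) (K ×ˢ Set.univ) :=
      continuousOn_pi.2 fun a => continuousOn_pi.2 fun b => hgr a b
    have h2 : ContinuousOn (fun p : E4 × (Fin 4 → R3) => (gram (curv A p.1)).adjugate)
        (K ×ˢ Set.univ) := by
      rw [continuousOn_iff_continuous_domRestrict] at h1 ⊢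
      exact h1.matrix_adjugate
    have h3 : ∀ b, ContinuousOn (fun p : E4 × (Fin 4 → R3) => (gram (curv A p.1)).adjugate a b)
        (K ×ˢ Set.univ) := fun b => continuousOn_pi.1 (continuousOn_pi.1 h2 a) b
    unfold adjF
    simp only [Matrix.mulVec, dotProduct]
    exact continuousOn_finsetSum _ fun b _ => (h3 b).mul (hc l m b)
  have hq : ContinuousOn (fun p : E4 × (Fin 4 → R3) => quad p.2 (adjF (curv A p.1)))
      (K ×ˢ Set.univ) := by
    unfold quad
    exact continuousOn_const.mul (((qb_wedge3 (ha 0) (ha 1) (fun l m => hadj l m 2)).add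
      (qb_wedge3 (ha 1) (ha 2) (fun l m => hadj l m 0))).add
      (qb_wedge3 (ha 2) (ha 0) (fun l m => hadj l m 1)))
  have hcon : ContinuousOn (fun p : E4 × (Fin 4 → R3) => ∑ e, con p.2 (curv A p.1) e ^ 2)
      (K ×ˢ Set.univ) := by
    refine continuousOn_finsetSum _ fun e _ => ContinuousOn.pow ?_ 2
    unfold con
    exact continuousOn_finsetSum _ fun a _ =>
      qb_wedge3 (ha a) (fun l => continuousOn_const) (fun l m => hc l m a)
  have hcon2 : ∀ y (t : ℝ) (α : Fin 4 → R3), ∑ e, con (t • α) (curv A y) e ^ 2 =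
      t ^ 2 * ∑ e, con α (curv A y) e ^ 2 := fun y t α => by
    simp only [qb_con_smul, mul_pow, Finset.mul_sum]
  have hcon0 : ∀ y (α : Fin 4 → R3), 0 ≤ ∑ e, con α (curv A y) e ^ 2 := fun y α =>
    Finset.sum_nonneg fun e _ => sq_nonneg _
  have hcz : ∀ y (α : Fin 4 → R3), ∑ e, con α (curv A y) e ^ 2 = 0 → Constr α (curv A y) := by
    intro y α h0
    apply qb_constr
    intro e
    have h2 := (Finset.sum_eq_zero_iff_of_nonneg (fun e _ => sq_nonneg _)).1 h0 e
      (Finset.mem_univ e)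
    exact pow_eq_zero_iff (two_ne_zero) |>.1 h2
  obtain ⟨C1, hC1, h1⟩ := qb_compact K hK (fun y α => quad α (adjF (curv A y)))
    (fun y α => ∑ e, con α (curv A y) e ^ 2) hq hcon (fun y t α => qb_quad_smul t α _) hcon2
    (fun y _ α => hcon0 y α) (fun y hy α hα h0 =>
      quadB_pos _ (skew_curv A y) (hP y hy) α (hcz y α h0) hα)
  obtain ⟨C, hC, h2⟩ := qb_compact K hK (fun _ (α : Fin 4 → R3) => -∑ m, ∑ a, α m a ^ 2)
    (fun y α => quad α (adjF (curv A y)) + (C1 + 1) * ∑ e, con α (curv A y) e ^ 2)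
    (by fun_prop) (hq.add (continuousOn_const.mul hcon))
    (fun y t α => by
      simp only [Pi.smul_apply, smul_eq_mul, mul_pow, ← Finset.mul_sum]
      ring)
    (fun y t α => by
      simp only [qb_quad_smul, hcon2]
      ring)
    (fun y hy α => by
      have := h1 y hy α
      have := hcon0 y α
      linarith)
    (fun y hy α hα h0 => by
      exfalso
      have h3 := h1 y hy α
      have h4 := hcon0 y α
      have h5 : ∑ e, con α (curv A y) e ^ 2 = 0 := by linarith
      rw [h5] at h0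
      have h6 := quadB_pos _ (skew_curv A y) (hP y hy) α (hcz y α h5) hα
      linarith)
  refine ⟨1 / (C + 1), by positivity, fun y hy α hα => ?_⟩
  have h3 := h2 y hy α
  have h4 : ∑ e, con α (curv A y) e ^ 2 = 0 := by
    refine Finset.sum_eq_zero fun e _ => ?_
    have h5 : con α (curv A y) e = 0 := by
      have h6 := hα (Pi.single e 1)
      exact h6
    rw [h5]
    ring
  rw [h4, mul_zero, add_zero] at h3
  have h5 : 0 ≤ quad α (adjF (curv A y)) := by
    by_cases hz : α = 0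
    · rw [hz]
      simp [quad, cm1, wedge3, wedge, wed]
    · exact (quadB_pos _ (skew_curv A y) (hP y hy) α hα hz).le
  rw [one_div, inv_mul_le_iff₀ (by linarith : (0 : ℝ) < C + 1)]
  linarith

end

end Pool.Agent.Helper98.UC
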